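import Pool.Agent.H41.T1.S5

/-!
# T1, row CTRK: symmetric matrices with given residues
-/

set_option autoImplicit false

namespace Pool.T137

open Polynomial Matrix Pool.HYP Pool.T1 IsDedekindDomain

theorem sumLe_one (n : ℕ) : sumLe (fun _ _ : Fin n => 1) = n * (n + 1) / 2 := by
  have h : 2 * sumLe (fun _ _ : Fin n => 1) = n * (n + 1) := by
    induction n with
    | zero => simp [sumLe]
    | succ n ih =>
      have h1 : sumLe (fun _ _ : Fin (n + 1) => 1) = (n + 1) + sumLe (fun _ _ : Fin n => 1) := by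
        unfold sumLe
        rw [Fin.sum_univ_succ]
        congr 1
        · rw [Finset.sum_congr rfl (fun j _ => if_pos (Fin.zero_le j))]
          simp
        · refine Finset.sum_congr rfl fun i _ => ?_
          rw [Fin.sum_univ_succ, if_neg (by simp), zero_add]
          refine Finset.sum_congr rfl fun j _ => ?_
          simp only [Fin.succ_le_succ_iff]
      rw [h1, mul_add, ih]
      ring
  omega

theorem prod_sumLe {n : ℕ} (q : ℕ) (e : Fin n → Fin n → ℕ) :
    ∏ i, ∏ j, (if i ≤ j then q ^ e i j else 1) = q ^ sumLe e := by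
  unfold sumLe
  rw [← Finset.prod_pow_eq_pow_sum]
  refine Finset.prod_congr rfl fun i _ => ?_
  rw [← Finset.prod_pow_eq_pow_sum]
  refine Finset.prod_congr rfl fun j _ => ?_
  by_cases h : i ≤ j
  · rw [if_pos h, if_pos h]
  · rw [if_neg h, if_neg h, pow_zero]

theorem sym_ext {R : Type} {n : ℕ} {S S' : Matrix (Fin n) (Fin n) R} (h1 : Sᵀ = S)
    (h2 : S'ᵀ = S') (h : ∀ i j, i ≤ j → S i j = S' i j) : S = S' := by
  ext i j
  rcases le_total i j with hij | hij
  · exact h i j hij
  · have h3 : S i j = S j i := by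
      conv_lhs => rw [← h1]
      rfl
    have h4 : S' i j = S' j i := by
      conv_lhs => rw [← h2]
      rfl
    rw [h3, h4, h j i hij]

theorem mem_prod {R : Type} [CommRing R] [IsDedekindDomain R] (T : Finset (HeightOneSpectrum R))
    (a : R) (h : ∀ P ∈ T, a ∈ P.asIdeal) : a ∈ ∏ P ∈ T, P.asIdeal := by
  have h1 := IsDedekindDomain.inf_pow_eq_prod_of_prime T (fun P => P.asIdeal) (fun _ => 1)
    (fun P _ => P.prime) (fun P _ Q _ hne h => hne (HeightOneSpectrum.ext h))
  simp only [pow_one] at h1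
  rw [← h1, Submodule.mem_finsetInf]
  exact h

theorem CTRK : CTRKStmt := by
  classical
  intro R _ _ K _ _ _ O π hG hU n T X e hN
  have hfQ : ∀ P : HeightOneSpectrum R, Finite (R ⧸ P.asIdeal) := fun P => hG.fin _ P.ne_bot
  have hfX : ∀ P : HeightOneSpectrum R, (X P).Finite := fun P => by
    have := hfQ P
    exact Set.toFinite _
  set Q : ℕ := ∏ P ∈ T, Nm P with hQ
  set I : Ideal R := ∏ P ∈ T, P.asIdeal with hI
  set q : ℕ := qq O with hq
  let E : Fin n → Fin n → ℕ := fun i j => (e i j + 1).toNat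
  set 𝒮 : Set (Matrix (Fin n) (Fin n) R) := {S | Sᵀ = S ∧ (∀ i j, S i j ∈ Lm R O π (e i j)) ∧
      ∀ P ∈ T, S.map (Ideal.Quotient.mk P.asIdeal) ∈ X P} with h𝒮
  have hfin : 𝒮.Finite := by
    have h1 : (Set.univ.pi fun i : Fin n => Set.univ.pi fun j : Fin n =>
        Lm R O π (e i j)).Finite :=
      Set.Finite.pi fun i => Set.Finite.pi fun j => (hU (e i j)).1
    refine h1.subset ?_
    rintro S ⟨_, h2, _⟩ i _ j _
    exact h2 i j
  let A : Finset (∀ P : T, Matrix (Fin n) (Fin n) (R ⧸ (P : HeightOneSpectrum R).asIdeal)) :=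
    Fintype.piFinset (fun P : T => (hfX P).toFinset)
  have hA : A.card = ∏ P ∈ T, (X P).ncard := by
    rw [Fintype.card_piFinset, ← Finset.prod_coe_sort T (fun P => (X P).ncard)]
    refine Finset.prod_congr rfl fun P _ => ?_
    rw [Set.ncard_eq_toFinset_card _ (hfX P)]
  let ρ : Matrix (Fin n) (Fin n) R →
      (∀ P : T, Matrix (Fin n) (Fin n) (R ⧸ (P : HeightOneSpectrum R).asIdeal)) :=
    fun S P => S.map (Ideal.Quotient.mk (P : HeightOneSpectrum R).asIdeal)
  have hρ : Set.MapsTo ρ (hfin.toFinset : Set (Matrix (Fin n) (Fin n) R)) A := by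
    intro S hS
    rw [Finset.mem_coe, Set.Finite.mem_toFinset] at hS
    rw [Finset.mem_coe, Fintype.mem_piFinset]
    intro P
    rw [Set.Finite.mem_toFinset]
    exact hS.2.2 P P.2
  have hfib : ∀ b ∈ A, {S ∈ hfin.toFinset | ρ S = b}.card * Q ^ (n * (n + 1) / 2) ≤
      q ^ sumLe E := by
    intro b _
    rcases Finset.eq_empty_or_nonempty {S ∈ hfin.toFinset | ρ S = b} with h0 | ⟨S₀, hS₀⟩
    · rw [h0, Finset.card_empty, zero_mul]
      exact Nat.zero_le _
    rw [Finset.mem_filter, Set.Finite.mem_toFinset] at hS₀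
    have hfN : ∀ i j, {a ∈ Lm R O π (e i j) | a - S₀ i j ∈ I}.Finite := fun i j =>
      (hU (e i j)).1.subset (Set.sep_subset _ _)
    let B : Finset (Fin n → Fin n → R) := Fintype.piFinset fun i => Fintype.piFinset fun j =>
      if i ≤ j then (hfN i j).toFinset else {0}
    have hBc : B.card = ∏ i, ∏ j, (if i ≤ j then
        {a ∈ Lm R O π (e i j) | a - S₀ i j ∈ I}.ncard else 1) := by
      rw [Fintype.card_piFinset]
      refine Finset.prod_congr rfl fun i _ => ?_
      rw [Fintype.card_piFinset]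
      refine Finset.prod_congr rfl fun j _ => ?_
      by_cases h : i ≤ j
      · rw [if_pos h, if_pos h, Set.ncard_eq_toFinset_card _ (hfN i j)]
      · rw [if_neg h, if_neg h, Finset.card_singleton]
    have h1 : {S ∈ hfin.toFinset | ρ S = b}.card ≤ B.card := by
      apply Finset.card_le_card_of_injOn (fun S i j => if i ≤ j then S i j else 0)
      · intro S hS
        rw [Finset.mem_coe, Finset.mem_filter, Set.Finite.mem_toFinset] at hS
        rw [Finset.mem_coe, Fintype.mem_piFinset]
        intro i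
        rw [Fintype.mem_piFinset]
        intro j
        by_cases hij : i ≤ j
        · simp only [if_pos hij]
          rw [Set.Finite.mem_toFinset]
          refine ⟨hS.1.2.1 i j, mem_prod T _ fun P hP => ?_⟩
          have h2 := congrFun (hS.2.trans hS₀.2.symm) ⟨P, hP⟩
          have h3 := congrFun (congrFun h2 i) j
          exact Ideal.Quotient.eq.mp h3
        · simp only [if_neg hij]
          exact Finset.mem_singleton_self _
      · intro S hS S' hS' heq
        rw [Finset.mem_coe, Finset.mem_filter, Set.Finite.mem_toFinset] at hS hS'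
        refine sym_ext hS.1.1 hS'.1.1 fun i j hij => ?_
        have h2 := congrFun (congrFun heq i) j
        simp only [if_pos hij] at h2
        exact h2
    have h2 : Q ^ (n * (n + 1) / 2) = ∏ i : Fin n, ∏ j : Fin n, (if i ≤ j then Q ^ 1 else 1) := by
      rw [← sumLe_one, ← prod_sumLe]
    calc {S ∈ hfin.toFinset | ρ S = b}.card * Q ^ (n * (n + 1) / 2)
        ≤ B.card * Q ^ (n * (n + 1) / 2) := Nat.mul_le_mul_right _ h1
      _ = ∏ i, ∏ j, ((if i ≤ j then
          {a ∈ Lm R O π (e i j) | a - S₀ i j ∈ I}.ncard else 1) * (if i ≤ j then Q ^ 1 else 1)) := by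
        rw [h2, hBc, ← Finset.prod_mul_distrib]
        refine Finset.prod_congr rfl fun i _ => ?_
        rw [← Finset.prod_mul_distrib]
      _ ≤ ∏ i, ∏ j, (if i ≤ j then q ^ E i j else 1) := by
        refine Finset.prod_le_prod' fun i _ => Finset.prod_le_prod' fun j _ => ?_
        by_cases h : i ≤ j
        · rw [if_pos h, if_pos h, if_pos h, pow_one]
          exact hN i j (S₀ i j)
        · rw [if_neg h, if_neg h, if_neg h]
      _ = q ^ sumLe E := prod_sumLe q E
  rw [Set.ncard_eq_toFinset_card _ hfin, Finset.card_eq_sum_card_fiberwise hρ, Finset.sum_mul,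
    ← hA]
  calc ∑ b ∈ A, {S ∈ hfin.toFinset | ρ S = b}.card * Q ^ (n * (n + 1) / 2)
      ≤ ∑ _b ∈ A, q ^ sumLe E := Finset.sum_le_sum hfib
    _ = A.card * q ^ sumLe E := by rw [Finset.sum_const, smul_eq_mul]

end Pool.T137
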