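import Pool.Agent.H29.T1.Conc

/-!
# T1, row DERI: the derivation of the integral closure of `F[t]`
-/

set_option autoImplicit false

namespace Pool.T137

open Polynomial Pool.T1 TensorProduct

/-- Extension of a derivation along a formally etale algebra. -/
theorem der_ext (S T : Type) [CommRing S] [CommRing T] [Algebra S T] [Algebra.FormallyEtale S T]
    (d : Derivation ℤ S T) : ∃ D : Derivation ℤ T T, ∀ s : S, D (algebraMap S T s) = d s := by
  let e := KaehlerDifferential.tensorKaehlerEquivOfFormallyEtale ℤ S T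
  let l : T ⊗[S] (Ω[S⁄ℤ]) →ₗ[T] T := LinearMap.liftBaseChange T d.liftKaehlerDifferential
  refine ⟨(l.comp e.symm.toLinearMap).compDer (KaehlerDifferential.D ℤ T), fun s => ?_⟩
  show l (e.symm (KaehlerDifferential.D ℤ T (algebraMap S T s))) = d s
  rw [KaehlerDifferential.tensorKaehlerEquivOfFormallyEtale_symm_D_algebraMap]
  show LinearMap.liftBaseChange T d.liftKaehlerDifferential (1 ⊗ₜ _) = _
  rw [LinearMap.liftBaseChange_tmul, one_smul, Derivation.liftKaehlerDifferential_comp_D]

section K

variable (F : Type) [Field F] (K : Type) [Field K] [Algebra (RatFunc F) K]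

/-- The polynomials inside `K`. -/
noncomputable abbrev pK : F[X] →+* K :=
  (algebraMap (RatFunc F) K).comp (algebraMap F[X] (RatFunc F))

theorem pK_inj : Function.Injective (pK F K) := by
  exact (algebraMap (RatFunc F) K).injective.comp (IsFractionRing.injective F[X] (RatFunc F))

/-- The derivation `d/dt` of `K`. -/
theorem der_K [FiniteDimensional (RatFunc F) K] [Algebra.IsSeparable (RatFunc F) K] :
    ∃ D : Derivation ℤ K K, ∀ p : F[X], D (pK F K p) = pK F K (derivative p) := by
  let := algX F K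
  have : IsScalarTower F[X] (RatFunc F) K := IsScalarTower.of_algebraMap_eq fun x => rfl
  have h1 : Algebra.FormallyEtale F[X] (RatFunc F) :=
    Algebra.FormallyEtale.of_isLocalization (nonZeroDivisors F[X])
  have h2 : Algebra.FormallyEtale (RatFunc F) K := Algebra.FormallyEtale.of_isSeparable _ _
  have h3 : Algebra.FormallyEtale F[X] K := Algebra.FormallyEtale.comp F[X] (RatFunc F) K
  let d : Derivation ℤ F[X] K := Derivation.mk'
    ((Algebra.linearMap F[X] K).toAddMonoidHom.comp
      (derivative (R := F)).toAddMonoidHom).toIntLinearMap (fun a b => by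
        show algebraMap F[X] K (derivative (a * b)) =
          a • algebraMap F[X] K (derivative b) + b • algebraMap F[X] K (derivative a)
        rw [derivative_mul, map_add, map_mul, map_mul, Algebra.smul_def, Algebra.smul_def]
        ring)
  obtain ⟨D, hD⟩ := der_ext F[X] K d
  exact ⟨D, fun p => hD p⟩

end K

section O

variable {F : Type} [Field F] {K : Type} [Field K] [Algebra (RatFunc F) K]
variable (O : ValuationSubring K)

theorem fin_mem [Finite F] (a : F) : pK F K (C a) ∈ O := by
  by_cases ha : a = 0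
  · rw [ha, C_0, map_zero]
    exact O.zero_mem
  · have h1 : a ^ (Nat.card F - 1) = 1 := by
      have := Fintype.ofFinite F
      rw [Nat.card_eq_fintype_card]
      exact FiniteField.pow_card_sub_one_eq_one a ha
    have h2 : 1 < Nat.card F := Finite.one_lt_card
    rcases O.mem_or_inv_mem (pK F K (C a)) with h | h
    · exact h
    · have h3 : pK F K (C a) = ((pK F K (C a))⁻¹) ^ (Nat.card F - 2) := by
        have h4 : pK F K (C a) ≠ 0 := by
          rw [Ne, map_eq_zero_iff _ (pK_inj F K), C_eq_zero]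
          exact ha
        have h5 : (pK F K (C a)) ^ (Nat.card F - 1) = 1 := by
          rw [← map_pow, ← C_pow, h1, C_1, map_one]
        rw [inv_pow]
        apply eq_inv_of_mul_eq_one_left
        rw [← pow_succ', show Nat.card F - 2 + 1 = Nat.card F - 1 by omega, h5]
      rw [h3]
      exact pow_mem h _

theorem val_X (hO : pK F K X ∉ O) : 1 < O.valuation (pK F K X) := by
  rwa [← not_le, ValuationSubring.valuation_le_one_iff]

theorem val_C [Finite F] (a : F) (ha : a ≠ 0) : O.valuation (pK F K (C a)) = 1 := by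
  apply le_antisymm
  · exact (ValuationSubring.valuation_le_one_iff _ _).mpr (fin_mem O a)
  · have h1 := (ValuationSubring.valuation_le_one_iff O _).mpr (fin_mem (K := K) O a⁻¹)
    have h2 : pK F K (C a) * pK F K (C a⁻¹) = 1 := by
      rw [← map_mul, ← C_mul, mul_inv_cancel₀ ha, C_1, map_one]
    have h3 : O.valuation (pK F K (C a)) * O.valuation (pK F K (C a⁻¹)) = 1 := by
      rw [← map_mul, h2, map_one]
    have h4 := mul_le_mul_right h1 (O.valuation (pK F K (C a)))
    rw [mul_one, h3] at h4
    exact h4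

variable (hO : pK F K X ∉ O)
include hO

theorem val_p [Finite F] (p : F[X]) (hp : p ≠ 0) :
    O.valuation (pK F K p) = O.valuation (pK F K X) ^ p.natDegree := by
  have hX := val_X O hO
  have hX0 : O.valuation (pK F K X) ≠ 0 := (lt_trans zero_lt_one hX).ne'
  induction hn : p.natDegree using Nat.strong_induction_on generalizing p with
  | _ n ih =>
    have hlc : p.leadingCoeff ≠ 0 := leadingCoeff_ne_zero.mpr hp
    have h1 : p = p.eraseLead + C p.leadingCoeff * X ^ p.natDegree :=
      (eraseLead_add_C_mul_X_pow p).symm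
    have h2 : O.valuation (pK F K (C p.leadingCoeff * X ^ p.natDegree)) =
        O.valuation (pK F K X) ^ p.natDegree := by
      rw [map_mul, map_mul, val_C O _ hlc, one_mul, map_pow, map_pow]
    by_cases h3 : p.eraseLead = 0
    · rw [h1, h3, zero_add, h2, hn]
    · have h4 : p.eraseLead.natDegree < p.natDegree := by
        rcases eraseLead_natDegree_lt_or_eraseLead_eq_zero p with h | h
        · exact h
        · exact absurd h h3
      have h5 := ih _ (hn ▸ h4) p.eraseLead h3 rfl
      have h6 : O.valuation (pK F K p.eraseLead) <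
          O.valuation (pK F K (C p.leadingCoeff * X ^ p.natDegree)) := by
        rw [h2, h5]
        exact pow_lt_pow_right₀ hX h4
      rw [h1, map_add, Valuation.map_add_eq_of_lt_right _ h6, h2, hn]

theorem mem_div [Finite F] (a b : F[X]) (ha : a ≠ 0) (hb : b ≠ 0) :
    pK F K a / pK F K b ∈ O ↔ a.natDegree ≤ b.natDegree := by
  have hX := val_X O hO
  rw [← ValuationSubring.valuation_le_one_iff, map_div₀, val_p O hO a ha, val_p O hO b hb,
    div_le_one₀ (pow_pos (lt_trans zero_lt_one hX) _)]
  exact pow_le_pow_iff_right₀ hX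

/-- A valuation ring containing `O ∩ F(t)` and not equal to `O` contains `F(t)`. -/
theorem sub_all [Finite F] (V : ValuationSubring K)
    (h1 : ∀ q : RatFunc F, algebraMap (RatFunc F) K q ∈ O → algebraMap (RatFunc F) K q ∈ V)
    (h2 : pK F K X ∈ V) (q : RatFunc F) : algebraMap (RatFunc F) K q ∈ V := by
  have hp : ∀ p : F[X], pK F K p ∈ V := by
    intro p
    induction p using Polynomial.induction_on' with
    | add p q hp hq => rw [map_add]; exact V.add_mem _ _ hp hq
    | monomial n a =>
      rw [← C_mul_X_pow_eq_monomial, map_mul, map_pow]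
      refine V.mul_mem _ _ (h1 (algebraMap F[X] (RatFunc F) (C a)) (fin_mem O a)) ?_
      exact pow_mem h2 n
  have hq := RatFunc.num_div_denom q
  rw [← hq, map_div₀, div_eq_mul_inv]
  refine V.mul_mem _ _ (hp _) ?_
  have h3 := (mem_div O hO 1 q.denom one_ne_zero (RatFunc.denom_ne_zero q)).mpr (by simp)
  rw [map_one, one_div] at h3
  have h4 := h1 (algebraMap F[X] (RatFunc F) q.denom)⁻¹ (by rw [map_inv₀]; exact h3)
  rwa [map_inv₀] at h4

/-- The elements of `O` are integral over `O ∩ F(t)`. -/
theorem int_O [Finite F] [FiniteDimensional (RatFunc F) K]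
    (hu : ∀ O' : ValuationSubring K, pK F K X ∉ O' → O' = O) (x : K) (hx : x ∈ O) :
    IsIntegral (O.comap (algebraMap (RatFunc F) K)) x := by
  by_contra hc
  let A := O.comap (algebraMap (RatFunc F) K)
  let S : Subring K := (integralClosure A K).toSubring
  have hS : IsIntegrallyClosedIn S K := by
    exact inferInstanceAs (IsIntegrallyClosedIn (integralClosure A K) K)
  have hxS : x ∉ S := hc
  obtain ⟨V, hV, hxV⟩ := Subring.exists_le_valuationSubring_of_isIntegrallyClosedIn hxS
  have hA : ∀ q : RatFunc F, algebraMap (RatFunc F) K q ∈ O → algebraMap (RatFunc F) K q ∈ V := by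
    intro q hq
    apply hV
    exact (integralClosure A K).algebraMap_mem (⟨q, hq⟩ : A)
  by_cases ht : pK F K X ∈ V
  · have hall := sub_all O hO V hA ht
    apply hxV
    have hi : IsIntegral (RatFunc F) x := Algebra.IsIntegral.isIntegral x
    have hi2 : IsIntegral V x := by
      obtain ⟨p, hp, hp0⟩ := hi
      let g : RatFunc F →+* V := (algebraMap (RatFunc F) K).codRestrict V.toSubring hall
      refine ⟨p.map g, hp.map g, ?_⟩
      rw [eval₂_map]
      exact hp0
    obtain ⟨y, hy⟩ := IsIntegrallyClosed.isIntegral_iff.mp hi2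
    rw [← hy]
    exact y.2
  · exact hxV ((hu V ht).symm ▸ hx)

/-- `O` is a bounded module over `O ∩ F(t)`. -/
theorem span_O [Finite F] [FiniteDimensional (RatFunc F) K] [Algebra.IsSeparable (RatFunc F) K]
    (hu : ∀ O' : ValuationSubring K, pK F K X ∉ O' → O' = O) :
    ∃ (n : ℕ) (e : Fin n → K), ∀ x ∈ O, ∃ q : Fin n → RatFunc F,
      (∀ i, algebraMap (RatFunc F) K (q i) ∈ O) ∧
      x = ∑ i, algebraMap (RatFunc F) K (q i) * e i := by
  classical
  let A := O.comap (algebraMap (RatFunc F) K)
  obtain ⟨s, b, hb⟩ := FiniteDimensional.exists_is_basis_integral A (RatFunc F) K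
  have h1 := integralClosure_le_span_dualBasis (A := A) b hb
  let b' := (Algebra.traceForm (RatFunc F) K).dualBasis
    (traceForm_nondegenerate (RatFunc F) K) b
  let ε : Fin (Fintype.card s) ≃ s := (Fintype.equivFin s).symm
  refine ⟨Fintype.card s, fun i => b' (ε i), fun x hx => ?_⟩
  have h2 : x ∈ Submodule.span A (Set.range b') := h1 (int_O O hO hu x hx)
  obtain ⟨c, hc⟩ := (Submodule.mem_span_range_iff_exists_fun A).mp h2
  refine ⟨fun i => (c (ε i) : RatFunc F), fun i => (c (ε i)).2, ?_⟩
  rw [← hc, ← Equiv.sum_comp ε]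
  refine Finset.sum_congr rfl fun i _ => ?_
  exact Algebra.smul_def _ _

omit hO in
theorem sum_dist {ι : Type} (s : Finset ι) (hs : s.Nonempty) (f : ι → K)
    (h : ∀ i ∈ s, ∀ j ∈ s, O.valuation (f i) = O.valuation (f j) → i = j) :
    ∃ i ∈ s, O.valuation (∑ i ∈ s, f i) = O.valuation (f i) := by
  classical
  induction hs using Finset.Nonempty.cons_induction with
  | singleton a => exact ⟨a, Finset.mem_singleton_self a, by rw [Finset.sum_singleton]⟩
  | cons a s ha hs ih =>
    obtain ⟨i, hi, h1⟩ := ih fun i hi j hj => h i (Finset.mem_cons_of_mem hi) j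
      (Finset.mem_cons_of_mem hj)
    have h2 : O.valuation (f a) ≠ O.valuation (∑ i ∈ s, f i) := by
      intro h3
      rw [h1] at h3
      have h4 := h a (Finset.mem_cons_self a s) i (Finset.mem_cons_of_mem hi) h3
      exact ha (h4 ▸ hi)
    rw [Finset.sum_cons]
    rcases le_total (O.valuation (f a)) (O.valuation (∑ i ∈ s, f i)) with h5 | h5
    · refine ⟨i, Finset.mem_cons_of_mem hi, ?_⟩
      rw [Valuation.map_add_of_distinct_val _ h2, max_eq_right h5, h1]
    · refine ⟨a, Finset.mem_cons_self a s, ?_⟩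
      rw [Valuation.map_add_of_distinct_val _ h2, max_eq_left h5]

theorem val_q [Finite F] (q : RatFunc F) (hq : q ≠ 0) : ∃ d : ℤ,
    O.valuation (algebraMap (RatFunc F) K q) = O.valuation (pK F K X) ^ d := by
  have hX0 : O.valuation (pK F K X) ≠ 0 := (lt_trans zero_lt_one (val_X O hO)).ne'
  refine ⟨(q.num.natDegree : ℤ) - q.denom.natDegree, ?_⟩
  have h1 := RatFunc.num_div_denom q
  have h2 := val_p O hO q.num (RatFunc.num_ne_zero hq)
  have h3 := val_p O hO q.denom (RatFunc.denom_ne_zero q)
  rw [zpow_sub₀ hX0, zpow_natCast, zpow_natCast, ← h2, ← h3, ← map_div₀]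
  show _ = O.valuation (algebraMap (RatFunc F) K _ / algebraMap (RatFunc F) K _)
  rw [← map_div₀, h1]

/-- The valuation of `O` has rank one. -/
theorem rank1 [Finite F] [FiniteDimensional (RatFunc F) K] (w : K) (hw : w ∉ O) :
    ∃ k d : ℕ, 1 ≤ k ∧ 1 ≤ d ∧ O.valuation w ^ k = O.valuation (pK F K X) ^ d := by
  have hX := val_X O hO
  have hX0 : O.valuation (pK F K X) ≠ 0 := (lt_trans zero_lt_one hX).ne'
  have hw1 : 1 < O.valuation w := by rwa [← not_le, ValuationSubring.valuation_le_one_iff]
  have hw0 : O.valuation w ≠ 0 := (lt_trans zero_lt_one hw1).ne'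
  obtain ⟨p, hp, hp0⟩ := (Algebra.IsIntegral.isIntegral w : IsIntegral (RatFunc F) w)
  have key : ∃ i j : ℕ, i < j ∧ p.coeff i ≠ 0 ∧ p.coeff j ≠ 0 ∧
      O.valuation (algebraMap (RatFunc F) K (p.coeff i) * w ^ i) =
        O.valuation (algebraMap (RatFunc F) K (p.coeff j) * w ^ j) := by
    by_contra hc
    push Not at hc
    obtain ⟨i, hi, h1⟩ := sum_dist O p.support (nonempty_support_iff.mpr hp.ne_zero)
      (fun i => algebraMap (RatFunc F) K (p.coeff i) * w ^ i) (by
        intro i hi j hj hij
        rcases lt_trichotomy i j with h | h | h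
        · exact absurd hij (hc i j h (mem_support_iff.mp hi) (mem_support_iff.mp hj))
        · exact h
        · exact absurd hij.symm (hc j i h (mem_support_iff.mp hj) (mem_support_iff.mp hi)))
    have h2 : ∑ i ∈ p.support, algebraMap (RatFunc F) K (p.coeff i) * w ^ i = 0 := by
      rw [← hp0, eval₂_eq_sum, Polynomial.sum]
    rw [h2, map_zero] at h1
    have h3 := (Valuation.zero_iff _).mp h1.symm
    rcases mul_eq_zero.mp h3 with h4 | h4
    · exact mem_support_iff.mp hi ((map_eq_zero_iff _ (algebraMap (RatFunc F) K).injective).mp h4)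
    · have h5 : w = 0 := by
        by_contra h
        exact pow_ne_zero i h h4
      exact hw (h5 ▸ O.zero_mem)
  obtain ⟨i, j, hij, hi, hj, h1⟩ := key
  obtain ⟨a, ha⟩ := val_q O hO (p.coeff i) hi
  obtain ⟨b, hb⟩ := val_q O hO (p.coeff j) hj
  rw [map_mul, map_mul, map_pow, map_pow, ha, hb] at h1
  have h2 : O.valuation w ^ (j - i) = O.valuation (pK F K X) ^ (a - b) := by
    have h3 : O.valuation w ^ j = O.valuation w ^ i * O.valuation w ^ (j - i) := by
      rw [← pow_add]
      congr 1
      omega
    rw [h3] at h1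
    rw [zpow_sub₀ hX0, eq_div_iff (zpow_ne_zero _ hX0)]
    have h4 := pow_ne_zero i hw0
    have h5 : O.valuation w ^ i * (O.valuation (pK F K X) ^ b * O.valuation w ^ (j - i)) =
        O.valuation w ^ i * O.valuation (pK F K X) ^ a := by
      rw [mul_comm (O.valuation w ^ i) (O.valuation (pK F K X) ^ a), h1]
      exact mul_left_comm _ _ _
    rw [mul_comm]
    exact mul_left_cancel₀ h4 h5
  have h3 : 1 < O.valuation w ^ (j - i) := one_lt_pow₀ hw1 (by omega)
  have h4 : 0 < a - b := by
    by_contra hc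
    rw [h2] at h3
    exact absurd h3 (not_lt.mpr (zpow_le_one_of_nonpos₀ hX.le (by omega)))
  refine ⟨j - i, (a - b).toNat, by omega, by omega, ?_⟩
  rw [h2, ← zpow_natCast, Int.toNat_of_nonneg h4.le]

/-- Every element has a pole of finite order. -/
theorem pole_fin [Finite F] [FiniteDimensional (RatFunc F) K] (π : K) (hπ : Unif O π) (z : K) :
    ∃ c : ℕ, z * π ^ c ∈ O := by
  by_cases hz : z ∈ O
  · exact ⟨0, by rw [pow_zero, mul_one]; exact hz⟩
  have hX := val_X O hO
  have hw1 : 1 < O.valuation z := by rwa [← not_le, ValuationSubring.valuation_le_one_iff]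
  obtain ⟨k, d, hk, hd, h1⟩ := rank1 O hO z hz
  obtain ⟨k', d', hk', hd', h2⟩ := rank1 O hO π⁻¹ hπ.2.2.1
  refine ⟨k' * d, ?_⟩
  rw [← ValuationSubring.valuation_le_one_iff, map_mul, map_pow]
  have h3 : O.valuation z ≤ O.valuation π⁻¹ ^ (k' * d) := by
    calc O.valuation z ≤ O.valuation z ^ k := le_self_pow₀ hw1.le (by omega)
      _ = O.valuation (pK F K X) ^ d := h1
      _ ≤ (O.valuation (pK F K X) ^ d') ^ d := by
        rw [← pow_mul]
        exact pow_le_pow_right₀ hX.le (Nat.le_mul_of_pos_left d (by omega))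
      _ = O.valuation π⁻¹ ^ (k' * d) := by rw [← h2, ← pow_mul]
  have hp : O.valuation π ≠ 0 := by
    rw [Ne, Valuation.zero_iff]
    exact hπ.1
  calc O.valuation z * O.valuation π ^ (k' * d)
      ≤ O.valuation π⁻¹ ^ (k' * d) * O.valuation π ^ (k' * d) := mul_le_mul_left h3 _
    _ = 1 := by rw [← mul_pow, map_inv₀, inv_mul_cancel₀ hp, one_pow]

omit hO in
theorem pole_le (π : K) (hπ : Unif O π) (z : K) (c c' : ℕ) (h : c ≤ c') (hz : z * π ^ c ∈ O) :
    z * π ^ c' ∈ O := by
  obtain ⟨k, rfl⟩ := Nat.exists_eq_add_of_le h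
  rw [pow_add, ← mul_assoc]
  exact O.mul_mem _ _ hz (pow_mem hπ.2.1 k)

/-- A common bound of the poles. -/
theorem pole_fam [Finite F] [FiniteDimensional (RatFunc F) K] (π : K) (hπ : Unif O π) {n : ℕ}
    (z : Fin n → K) : ∃ c : ℕ, ∀ i, z i * π ^ c ∈ O := by
  choose c hc using fun i => pole_fin O hO π hπ (z i)
  exact ⟨∑ i, c i, fun i => pole_le O π hπ _ _ _
    (Finset.single_le_sum (fun j _ => Nat.zero_le _) (Finset.mem_univ i)) (hc i)⟩

/-- The derivative of an element of `O ∩ F(t)` is in `O`. -/
theorem der_q [Finite F] (D : Derivation ℤ K K) (hD : ∀ p : F[X], D (pK F K p) =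
    pK F K (derivative p)) (q : RatFunc F) (hq : algebraMap (RatFunc F) K q ∈ O) :
    D (algebraMap (RatFunc F) K q) ∈ O := by
  by_cases h0 : q.num = 0
  · have : q = 0 := RatFunc.num_eq_zero_iff.mp h0
    rw [this, map_zero, map_zero]
    exact O.zero_mem
  have h1 : algebraMap (RatFunc F) K q = pK F K q.num / pK F K q.denom := by
    conv_lhs => rw [← RatFunc.num_div_denom q, map_div₀]
    rfl
  have hd := RatFunc.denom_ne_zero q
  have hd' : pK F K q.denom ≠ 0 := by
    rw [Ne, map_eq_zero_iff _ (pK_inj F K)]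
    exact hd
  rw [h1] at hq ⊢
  have h2 := (mem_div O hO _ _ h0 hd).mp hq
  have h3 : D (pK F K q.num / pK F K q.denom) =
      pK F K (q.denom * derivative q.num - q.num * derivative q.denom) /
        pK F K (q.denom * q.denom) := by
    rw [Derivation.leibniz_div, hD, hD]
    simp only [smul_eq_mul, map_sub, map_mul]
    field_simp
  rw [h3]
  by_cases h4 : q.denom * derivative q.num - q.num * derivative q.denom = 0
  · rw [h4, map_zero, zero_div]
    exact O.zero_mem
  · refine (mem_div O hO _ _ h4 (mul_ne_zero hd hd)).mpr ?_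
    rw [natDegree_mul hd hd]
    refine (natDegree_sub_le _ _).trans (max_le ?_ ?_)
    · refine natDegree_mul_le.trans ?_
      have := natDegree_derivative_le q.num
      omega
    · refine natDegree_mul_le.trans ?_
      have := natDegree_derivative_le q.denom
      omega

end O

theorem DERI : DERIStmt := by
  intro F _ _ _ K _ _ _ _ O hO π hπ
  obtain ⟨D, hD⟩ := der_K F K
  have hX : pK F K X ∉ O := by
    have h1 := hO.1
    rwa [← RatFunc.algebraMap_X] at h1
  have hu : ∀ O' : ValuationSubring K, pK F K X ∉ O' → O' = O := by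
    intro O' h
    apply hO.2 O'
    rwa [← RatFunc.algebraMap_X]
  obtain ⟨n, e, he⟩ := span_O O hX hu
  obtain ⟨c1, hc1⟩ := pole_fam O hX π hπ e
  obtain ⟨c2, hc2⟩ := pole_fam O hX π hπ (fun i => D (e i))
  have B0 : ∀ x ∈ O, D x * π ^ (c1 + c2) ∈ O := by
    intro x hx
    obtain ⟨q, hq, rfl⟩ := he x hx
    rw [map_sum, Finset.sum_mul]
    refine sum_mem fun i _ => ?_
    rw [Derivation.leibniz, smul_eq_mul, smul_eq_mul, add_mul]
    refine O.add_mem _ _ ?_ ?_
    · rw [mul_assoc]
      exact O.mul_mem _ _ (hq i) (pole_le O π hπ _ _ _ (by omega) (hc2 i))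
    · rw [mul_comm (e i), mul_assoc]
      exact O.mul_mem _ _ (der_q O hX D hD (q i) (hq i)) (pole_le O π hπ _ _ _ (by omega) (hc1 i))
  have hfin := finite_RR F K
  obtain ⟨s, hs⟩ := (Module.Finite.fg_top : (⊤ : Submodule F[X] (RR F K)).FG)
  classical
  obtain ⟨δ, hδ⟩ := IsLocalization.exist_integer_multiples_of_finset (nonZeroDivisors (RR F K))
    (s.image fun a => D (algebraMap (RR F K) K a))
  have hinj : Function.Injective (algebraMap (RR F K) K) := IsFractionRing.injective (RR F K) K
  have hR : ∀ a : RR F K, ∃ b : RR F K, algebraMap (RR F K) K b =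
      algebraMap (RR F K) K (δ : RR F K) * D (algebraMap (RR F K) K a) := by
    intro a
    have ha : a ∈ Submodule.span F[X] (s : Set (RR F K)) := hs ▸ Submodule.mem_top
    induction ha using Submodule.span_induction with
    | mem x hx =>
      obtain ⟨b, hb⟩ := hδ _ (Finset.mem_image_of_mem _ hx)
      exact ⟨b, hb.trans (Algebra.smul_def _ _)⟩
    | zero => exact ⟨0, by rw [map_zero, map_zero, mul_zero]⟩
    | add x y _ _ hx hy =>
      obtain ⟨b, hb⟩ := hx
      obtain ⟨b', hb'⟩ := hy
      exact ⟨b + b', by rw [map_add, map_add, map_add, mul_add, hb, hb']⟩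
    | smul p x _ hx =>
      obtain ⟨b, hb⟩ := hx
      refine ⟨xR F K (derivative p) * x * δ + xR F K p * b, ?_⟩
      have h1 : algebraMap (RR F K) K (p • x) = pK F K p * algebraMap (RR F K) K x := rfl
      have h2 : ∀ p : F[X], algebraMap (RR F K) K (xR F K p) = pK F K p := fun p => rfl
      rw [h1, Derivation.leibniz, hD, map_add, map_mul, map_mul, map_mul, hb, h2, h2, smul_eq_mul,
        smul_eq_mul]
      ring
  choose D' hD' using hR
  let DD : Derivation ℤ (RR F K) (RR F K) := Derivation.mk'
    (AddMonoidHom.mk' D' (fun a b => hinj (by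
      rw [hD', map_add, map_add, map_add, hD', hD', mul_add]))).toIntLinearMap (fun a b => by
        show D' (a * b) = a * D' b + b * D' a
        apply hinj
        rw [hD', map_add, map_mul (algebraMap (RR F K) K) a b, Derivation.leibniz, map_mul, map_mul,
          hD', hD', smul_eq_mul, smul_eq_mul]
        ring)
  have hDD : ∀ a, algebraMap (RR F K) K (DD a) =
      algebraMap (RR F K) K (δ : RR F K) * D (algebraMap (RR F K) K a) := fun a => hD' a
  refine ⟨DD, ⟨xR F K X, ?_⟩, ?_⟩
  · intro h0
    have h1 := hDD (xR F K X)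
    have h2 : algebraMap (RR F K) K (xR F K X) = pK F K X := rfl
    rw [h0, map_zero, h2, hD, derivative_X, map_one, mul_one] at h1
    have h3 := (map_eq_zero_iff _ hinj).mp h1.symm
    exact nonZeroDivisors.ne_zero δ.2 h3
  · obtain ⟨c3, hc3⟩ := pole_fin O hX π hπ (algebraMap (RR F K) K (δ : RR F K))
    refine ⟨c3 + (c1 + c2 + 1), fun m a ha => ?_⟩
    have ha' : algebraMap (RR F K) K a * π ^ m ∈ O := ha
    show algebraMap (RR F K) K (DD a) * π ^ (m + ((c3 + (c1 + c2 + 1) : ℕ) : ℤ)) ∈ O
    rw [hDD]
    have hp := hπ.1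
    have h1 := Derivation.leibniz D (algebraMap (RR F K) K a) (π ^ m)
    rw [Derivation.leibniz_zpow, smul_eq_mul, smul_eq_mul, smul_eq_mul] at h1
    have h2 : algebraMap (RR F K) K (δ : RR F K) * D (algebraMap (RR F K) K a) *
        π ^ (m + ((c3 + (c1 + c2 + 1) : ℕ) : ℤ)) =
        (algebraMap (RR F K) K (δ : RR F K) * π ^ c3) *
        (D (algebraMap (RR F K) K a * π ^ m) * π ^ (c1 + c2) * π -
          (m : K) * (algebraMap (RR F K) K a * π ^ m) * (D π * π ^ (c1 + c2))) := by
      rw [h1, zpow_add₀ hp, zpow_natCast, pow_add, pow_succ, zsmul_eq_mul]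
      have h3 : π ^ m = π ^ (m - 1) * π := by
        rw [← zpow_add_one₀ hp, sub_add_cancel]
      rw [h3]
      ring
    rw [h2]
    refine O.mul_mem _ _ hc3 (sub_mem (O.mul_mem _ _ (B0 _ ha') hπ.2.1) ?_)
    refine O.mul_mem _ _ (O.mul_mem _ _ (intCast_mem O m) ha') (B0 _ hπ.2.1)

end Pool.T137
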