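import Pool.Agent.H58.T1.S1

/-!
# T1, row GRF: the tail of the sum over the primes
-/

set_option autoImplicit false

namespace Pool.T137

open Polynomial Matrix Pool.HYP Pool.T1 IsDedekindDomain

theorem geo_half (r : ℝ) (h0 : 0 ≤ r) (h1 : r ≤ 1 / 2) (K : ℕ) :
    ∑ k ∈ Finset.range K, r ^ k ≤ 2 - 2 * r ^ K := by
  induction K with
  | zero => simp
  | succ K ih =>
    rw [Finset.sum_range_succ, pow_succ]
    have h2 : r ^ K * r ≤ r ^ K * (1 / 2) := mul_le_mul_of_nonneg_left h1 (pow_nonneg h0 K)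
    linarith only [ih, h2]

theorem geo_set (r : ℝ) (h0 : 0 ≤ r) (h1 : r ≤ 1 / 2) (m0 : ℕ) (s : Finset ℕ)
    (hs : ∀ m ∈ s, m0 ≤ m) : ∑ m ∈ s, r ^ m ≤ 2 * r ^ m0 := by
  have h2 : ∑ m ∈ s, r ^ m ≤ ∑ k ∈ Finset.range (s.sup id + 1), r ^ (m0 + k) := by
    have h3 : ∑ m ∈ s, r ^ m = ∑ k ∈ s.image (fun m => m - m0), r ^ (m0 + k) := by
      rw [Finset.sum_image]
      · refine Finset.sum_congr rfl fun m hm => ?_
        have := hs m hm
        congr 1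
        omega
      · intro a ha b hb hab
        have h4 := hs a ha
        have h5 := hs b hb
        simp only at hab
        omega
    rw [h3]
    apply Finset.sum_le_sum_of_subset_of_nonneg
    · intro k hk
      rw [Finset.mem_image] at hk
      obtain ⟨m, hm, rfl⟩ := hk
      have h4 : m ≤ s.sup id := Finset.le_sup (f := id) hm
      rw [Finset.mem_range]
      omega
    · intro i _ _
      exact pow_nonneg h0 _
  refine h2.trans ?_
  have h3 : ∑ k ∈ Finset.range (s.sup id + 1), r ^ (m0 + k) =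
      r ^ m0 * ∑ k ∈ Finset.range (s.sup id + 1), r ^ k := by
    rw [Finset.mul_sum]
    exact Finset.sum_congr rfl fun k _ => pow_add r m0 k
  rw [h3, mul_comm (2 : ℝ)]
  refine mul_le_mul_of_nonneg_left ?_ (pow_nonneg h0 _)
  have h4 := geo_half r h0 h1 (s.sup id + 1)
  have h5 : 0 ≤ r ^ (s.sup id + 1) := pow_nonneg h0 _
  linarith only [h4, h5]

section Abs

variable {R : Type} [CommRing R] [IsDedekindDomain R]

/-- Two primes which contain `a`. -/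
theorem two_primes (a : R) (hf : Finite (R ⧸ Ideal.span {a})) (P P' : HeightOneSpectrum R)
    (hne : P ≠ P') (hP : a ∈ P.asIdeal) (hP' : a ∈ P'.asIdeal) :
    Nm P * Nm P' ≤ Nat.card (R ⧸ Ideal.span {a}) := by
  have hc : IsCoprime P.asIdeal P'.asIdeal := P.isCoprime_of_ne P' hne
  have h1 : Ideal.span {a} ≤ P.asIdeal ⊓ P'.asIdeal := by
    rw [Ideal.span_singleton_le_iff_mem]
    exact ⟨hP, hP'⟩
  have h2 : Nat.card (R ⧸ P.asIdeal ⊓ P'.asIdeal) = Nm P * Nm P' := by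
    rw [Nat.card_congr (Ideal.quotientInfEquivQuotientProd _ _ hc).toEquiv, Nat.card_prod]
    rfl
  rw [← h2]
  exact Nat.card_le_card_of_surjective _ (Ideal.Quotient.factor_surjective h1)

end Abs

theorem GRF (hA : GRAStmt) (hD : GRDStmt) : GRFStmt := by
  classical
  intro R _ _ K _ _ _ O π hG ε hε
  obtain ⟨hQ3, hU, -, ⟨c, hc⟩, -⟩ := hA R K O π hG
  have hD' := hD R K O π hG
  set Q := qq O with hQ
  have hfQ : ∀ P : HeightOneSpectrum R, Finite (R ⧸ P.asIdeal) := fun P => hG.fin _ P.ne_bot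
  have hN2 : ∀ P : HeightOneSpectrum R, 2 ≤ Nm P := by
    intro P
    have h1 := hfQ P
    have h2 : Nontrivial (R ⧸ P.asIdeal) := Ideal.Quotient.nontrivial_iff.mpr P.isPrime.ne_top
    exact Finite.one_lt_card
  have hc1 : 1 ≤ c := by
    by_contra h0
    have h1 : c = 0 := by omega
    have h2 := hc 0
    rw [h1, zero_mul] at h2
    have h3 : 0 < Q ^ (0 + 1) := pow_pos (by omega) _
    omega
  have hex : ∀ P : HeightOneSpectrum R, ∃ m : ℕ, c * Nm P < Q ^ (m + 1) := fun P =>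
    ⟨c * Nm P, (Nat.lt_pow_self (by omega : 1 < Q)).trans_le
      (Nat.pow_le_pow_right (by omega) (by omega))⟩
  let mm : HeightOneSpectrum R → ℕ := fun P => Nat.find (hex P)
  have hm1 : ∀ P, c * Nm P < Q ^ (mm P + 1) := fun P => Nat.find_spec (hex P)
  have hm2 : ∀ P, Q ^ mm P ≤ c * Nm P := by
    intro P
    rcases Nat.eq_zero_or_pos (mm P) with h | h
    · rw [h, pow_zero]
      exact Nat.mul_pos (by omega) (by have := hN2 P; omega)
    · have h1 := Nat.find_min (hex P) (m := mm P - 1) (by show mm P - 1 < mm P; omega)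
      rw [not_lt, Nat.sub_add_cancel h] at h1
      exact h1
  -- a nonzero element of `P` in `L(m)`
  have hel : ∀ P : HeightOneSpectrum R, ∃ a : R, a ≠ 0 ∧ a ∈ P.asIdeal ∧
      a ∈ Lm R O π (mm P : ℤ) := by
    intro P
    have hf := hfQ P
    have hfin := (hU (mm P : ℤ)).1
    have h1 : Nm P < (Lm R O π (mm P : ℤ)).ncard := by
      have h2 := hm1 P
      have h3 := hc (mm P)
      by_contra h4
      have h5 := Nat.mul_le_mul_left c (not_lt.mp h4)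
      omega
    have := Fintype.ofFinite (R ⧸ P.asIdeal)
    have h2 : (Finset.univ : Finset (R ⧸ P.asIdeal)).card < hfin.toFinset.card := by
      rw [← Set.ncard_eq_toFinset_card _ hfin, Finset.card_univ, ← Nat.card_eq_fintype_card]
      exact h1
    obtain ⟨x, hx, y, hy, hxy, h3⟩ := Finset.exists_ne_map_eq_of_card_lt_of_maps_to h2
      (f := fun a => Ideal.Quotient.mk P.asIdeal a) (fun _ _ => Finset.mem_coe.mpr (Finset.mem_univ _))
    rw [Set.Finite.mem_toFinset] at hx hy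
    refine ⟨x - y, sub_ne_zero.mpr hxy, Ideal.Quotient.eq.mp h3, ?_⟩
    show algebraMap R K (x - y) * π ^ (mm P : ℤ) ∈ O
    rw [map_sub, sub_mul]
    exact sub_mem hx hy
  choose el hel0 helP helL using hel
  -- the choice of `m0`
  obtain ⟨m0, hm0⟩ : ∃ m0 : ℕ, (c : ℝ) ^ 2 < (Q : ℝ) ^ m0 ∧
      4 * (c : ℝ) ^ 2 * Q ≤ ε * (Q : ℝ) ^ m0 := by
    have hQ1 : (1 : ℝ) < Q := by
      have : 1 < Q := by omega
      exact_mod_cast this
    obtain ⟨m1, h1⟩ := pow_unbounded_of_one_lt ((c : ℝ) ^ 2) hQ1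
    obtain ⟨m2, h2⟩ := pow_unbounded_of_one_lt (4 * (c : ℝ) ^ 2 * Q / ε) hQ1
    refine ⟨m1 + m2, ?_, ?_⟩
    · refine h1.trans_le (pow_le_pow_right₀ hQ1.le (by omega))
    · rw [div_lt_iff₀ hε] at h2
      refine h2.le.trans ?_
      rw [mul_comm]
      exact mul_le_mul_of_nonneg_left (pow_le_pow_right₀ hQ1.le (by omega)) hε.le
  have hQR : (0 : ℝ) < Q := by
    have : 0 < Q := by omega
    exact_mod_cast this
  refine ⟨Q ^ m0, Nat.one_le_iff_ne_zero.mpr (pow_ne_zero _ (by omega)), fun A hA => ?_⟩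
  have hmm : ∀ P ∈ A, m0 ≤ mm P := by
    intro P hP
    by_contra hlt
    have h1 := hm1 P
    have h2 := hA P hP
    have h3 : Q ^ (mm P + 1) ≤ Q ^ m0 := Nat.pow_le_pow_right (by omega) (by omega)
    have h4 : Nm P ≤ c * Nm P := Nat.le_mul_of_pos_left _ (by omega)
    omega
  -- injectivity
  have hinj : ∀ m : ℕ, Set.InjOn el {P ∈ A | mm P = m} := by
    rintro m P ⟨hP, hPm⟩ P' ⟨hP', hPm'⟩ heq
    by_contra hne
    obtain ⟨n, -, -, hn, hle⟩ := hD' (el P) (hel0 P)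
    have hfin : Finite (R ⧸ Ideal.span {el P}) := by
      apply hG.fin
      rw [Ne, Ideal.span_singleton_eq_bot]
      exact hel0 P
    have h1 := two_primes (el P) hfin P P' hne (helP P) (heq ▸ helP P')
    have h2 : n ≤ m := by
      have := (hle (mm P : ℤ)).mp (helL P)
      rw [hPm] at this
      exact_mod_cast this
    rw [hn] at h1
    have h3 : Q ^ n ≤ Q ^ m := Nat.pow_le_pow_right (by omega) h2
    have h4 := hm2 P
    have h5 := hm2 P'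
    rw [hPm] at h4
    rw [hPm'] at h5
    have h6 : Q ^ m * Q ^ m ≤ c ^ 2 * Q ^ m := by
      calc Q ^ m * Q ^ m ≤ (c * Nm P) * (c * Nm P') := Nat.mul_le_mul h4 h5
        _ = c ^ 2 * (Nm P * Nm P') := by ring
        _ ≤ c ^ 2 * Q ^ m := Nat.mul_le_mul_left _ (h1.trans h3)
    have h7 : Q ^ m ≤ c ^ 2 := Nat.le_of_mul_le_mul_right h6 (pow_pos (by omega) m)
    have h8 : (Q : ℝ) ^ m0 ≤ (Q : ℝ) ^ m := by
      have : Q ^ m0 ≤ Q ^ m := Nat.pow_le_pow_right (by omega) (hPm ▸ hmm P hP)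
      exact_mod_cast this
    have h9 : ((Q : ℝ) ^ m) ≤ (c : ℝ) ^ 2 := by exact_mod_cast h7
    linarith only [h8, h9, hm0.1]
  have hcard : ∀ m : ℕ, {P ∈ A | mm P = m}.card ≤ Q ^ (m + 1) := by
    intro m
    have hfin := (hU (m : ℤ)).1
    have h1 : {P ∈ A | mm P = m}.card ≤ hfin.toFinset.card := by
      apply Finset.card_le_card_of_injOn el
      · intro P hP
        rw [Finset.mem_coe, Finset.mem_filter] at hP
        rw [Finset.mem_coe, Set.Finite.mem_toFinset, ← hP.2]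
        exact helL P
      · intro P hP P' hP'
        rw [Finset.mem_coe, Finset.mem_filter] at hP hP'
        exact hinj m hP hP'
    rw [← Set.ncard_eq_toFinset_card _ hfin] at h1
    have h2 := (hU (m : ℤ)).2
    rw [show ((m : ℤ) + 1).toNat = m + 1 by omega] at h2
    exact h1.trans h2
  -- the sum
  have hterm : ∀ P ∈ A, ((Nm P : ℝ) ^ 2 - 1)⁻¹ ≤ 2 * (c : ℝ) ^ 2 * ((Q : ℝ) ^ mm P)⁻¹ ^ 2 := by
    intro P _
    have h1 : ((Q : ℝ) ^ mm P) ≤ c * Nm P := by exact_mod_cast hm2 P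
    have h2 : (2 : ℝ) ≤ Nm P := by exact_mod_cast hN2 P
    have hq : (0 : ℝ) < (Q : ℝ) ^ mm P := pow_pos hQR _
    have h3 : ((Q : ℝ) ^ mm P) ^ 2 ≤ (c * Nm P) ^ 2 := pow_le_pow_left₀ hq.le h1 2
    have h4 : (Nm P : ℝ) ^ 2 / 2 ≤ (Nm P : ℝ) ^ 2 - 1 := by nlinarith only [h2]
    have h5 : 0 < (Nm P : ℝ) ^ 2 / 2 := by positivity
    have hc0 : (0 : ℝ) < c := by
      have : 0 < c := by omega
      exact_mod_cast this
    calc ((Nm P : ℝ) ^ 2 - 1)⁻¹ ≤ ((Nm P : ℝ) ^ 2 / 2)⁻¹ := inv_anti₀ h5 h4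
      _ = 2 * (c : ℝ) ^ 2 * ((c * Nm P : ℝ) ^ 2)⁻¹ := by
        field_simp
      _ ≤ 2 * (c : ℝ) ^ 2 * (((Q : ℝ) ^ mm P) ^ 2)⁻¹ := by
        refine mul_le_mul_of_nonneg_left (inv_anti₀ (pow_pos hq 2) h3) (by positivity)
      _ = 2 * (c : ℝ) ^ 2 * ((Q : ℝ) ^ mm P)⁻¹ ^ 2 := by rw [inv_pow ((Q : ℝ) ^ mm P) 2]
  have hgroup : ∑ P ∈ A, 2 * (c : ℝ) ^ 2 * ((Q : ℝ) ^ mm P)⁻¹ ^ 2 =
      ∑ m ∈ A.image mm, ∑ P ∈ A with mm P = m, 2 * (c : ℝ) ^ 2 * ((Q : ℝ) ^ mm P)⁻¹ ^ 2 :=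
    (Finset.sum_fiberwise_of_maps_to (fun P hP => Finset.mem_image_of_mem mm hP) _).symm
  have hfib : ∀ m ∈ A.image mm,
      ∑ P ∈ A with mm P = m, 2 * (c : ℝ) ^ 2 * ((Q : ℝ) ^ mm P)⁻¹ ^ 2 ≤
        2 * (c : ℝ) ^ 2 * Q * ((Q : ℝ)⁻¹) ^ m := by
    intro m _
    have h1 : ∑ P ∈ A with mm P = m, 2 * (c : ℝ) ^ 2 * ((Q : ℝ) ^ mm P)⁻¹ ^ 2 =
        {P ∈ A | mm P = m}.card * (2 * (c : ℝ) ^ 2 * ((Q : ℝ) ^ m)⁻¹ ^ 2) := by
      rw [← nsmul_eq_mul, ← Finset.sum_const]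
      refine Finset.sum_congr rfl fun P hP => ?_
      rw [(Finset.mem_filter.mp hP).2]
    rw [h1]
    have h2 : ({P ∈ A | mm P = m}.card : ℝ) ≤ (Q : ℝ) ^ (m + 1) := by exact_mod_cast hcard m
    have hq : (0 : ℝ) < (Q : ℝ) ^ m := pow_pos hQR _
    calc ({P ∈ A | mm P = m}.card : ℝ) * (2 * (c : ℝ) ^ 2 * ((Q : ℝ) ^ m)⁻¹ ^ 2)
        ≤ (Q : ℝ) ^ (m + 1) * (2 * (c : ℝ) ^ 2 * ((Q : ℝ) ^ m)⁻¹ ^ 2) :=
          mul_le_mul_of_nonneg_right h2 (by positivity)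
      _ = 2 * (c : ℝ) ^ 2 * Q * ((Q : ℝ)⁻¹) ^ m := by
        rw [pow_succ, inv_pow (Q : ℝ) m]
        field_simp
  calc ∑ P ∈ A, ((Nm P : ℝ) ^ 2 - 1)⁻¹
      ≤ ∑ P ∈ A, 2 * (c : ℝ) ^ 2 * ((Q : ℝ) ^ mm P)⁻¹ ^ 2 := Finset.sum_le_sum hterm
    _ = ∑ m ∈ A.image mm, ∑ P ∈ A with mm P = m,
        2 * (c : ℝ) ^ 2 * ((Q : ℝ) ^ mm P)⁻¹ ^ 2 := hgroup
    _ ≤ ∑ m ∈ A.image mm, 2 * (c : ℝ) ^ 2 * Q * ((Q : ℝ)⁻¹) ^ m := Finset.sum_le_sum hfib
    _ = 2 * (c : ℝ) ^ 2 * Q * ∑ m ∈ A.image mm, ((Q : ℝ)⁻¹) ^ m := by rw [Finset.mul_sum]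
    _ ≤ 2 * (c : ℝ) ^ 2 * Q * (2 * ((Q : ℝ)⁻¹) ^ m0) := by
      refine mul_le_mul_of_nonneg_left (geo_set _ (inv_nonneg.mpr hQR.le) ?_ m0 _ ?_)
        (by positivity)
      · rw [one_div]
        refine inv_anti₀ two_pos ?_
        have : 2 ≤ Q := by omega
        exact_mod_cast this
      · intro m hm
        obtain ⟨P, hP, rfl⟩ := Finset.mem_image.mp hm
        exact hmm P hP
    _ ≤ ε := by
      have hq : (0 : ℝ) < (Q : ℝ) ^ m0 := pow_pos hQR _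
      have h1 : 2 * (c : ℝ) ^ 2 * Q * (2 * ((Q : ℝ)⁻¹) ^ m0) =
          4 * (c : ℝ) ^ 2 * Q / (Q : ℝ) ^ m0 := by
        rw [inv_pow]
        field_simp
        ring
      rw [h1, div_le_iff₀ hq]
      exact hm0.2

end Pool.T137
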